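import Mathlib
import Pool.Agent.Helper281.Sh.Star
import Pool.Agent.Helper281.Sh.Upper

set_option autoImplicit false

open Finset
open scoped FinsetFamily

namespace Pool.Agent.Results.MP_d50107_co.ThreeSets

/-- `F` is an intersecting `k`-graph with `m` edges on `n` points. -/
def IsIntersecting (n k m : ℕ) (F : Finset (Finset (Fin n))) : Prop :=
  (∀ A ∈ F, #A = k) ∧ (∀ A ∈ F, ∀ B ∈ F, (A ∩ B).Nonempty) ∧ #F = m

/-- `s(n,k,m)`: the minimum size of the shadow `∂ F` of such an `F`. -/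
noncomputable def s (n k m : ℕ) : ℕ :=
  sInf {c | ∃ F : Finset (Finset (Fin n)), IsIntersecting n k m F ∧ #(∂ F) = c}

theorem s_le {n k m : ℕ} {F : Finset (Finset (Fin n))} (hF : IsIntersecting n k m F) :
    s n k m ≤ #(∂ F) := Nat.sInf_le ⟨F, hF, rfl⟩

theorem le_s {n k m : ℕ} {F : Finset (Finset (Fin n))} (hF : IsIntersecting n k m F) (b : ℕ)
    (h : ∀ F' : Finset (Finset (Fin n)), IsIntersecting n k m F' → b ≤ #(∂ F')) :
    b ≤ s n k m := by
  unfold s
  apply le_csInf
  · exact ⟨_, F, hF, rfl⟩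
  · rintro c ⟨F', h', rfl⟩
    exact h F' h'

/-- For `m ≥ 28`: intersecting 3-graphs with `m` edges exist on `n` points exactly when
`m ≤ C(n-1,2)`, and the minimum size of the shadow is `m+2` or `m+3` for `m ≤ 3n-8`
and `m + x`, `x` least with `m ≤ C(x,2)`, for `m > 3n-8`. -/
theorem result (n m : ℕ) (hm : 28 ≤ m) :
    ((∃ F : Finset (Finset (Fin n)), IsIntersecting n 3 m F) ↔ m ≤ (n - 1).choose 2) ∧
    (m + 8 ≤ 3 * n → s n 3 m = if m % 3 = 1 then m + 2 else m + 3) ∧
    (3 * n < m + 8 → m ≤ (n - 1).choose 2 → s n 3 m = m + sInf {x : ℕ | m ≤ x.choose 2}) := by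
  have hcardn : Fintype.card (Fin n) = n := Fintype.card_fin n
  refine ⟨⟨?_, ?_⟩, ?_, ?_⟩
  · rintro ⟨F, h1, h2, h3⟩
    by_cases hn : m + 8 ≤ 3 * n
    · have h12 : 12 ≤ n := by omega
      obtain ⟨k, rfl⟩ := Nat.exists_eq_add_of_le h12
      have h4 : 12 + k - 1 = k + 11 := by omega
      rw [h4, Nat.choose_two_right, Nat.le_div_iff_mul_le (by norm_num)]
      have h5 : k + 11 - 1 = k + 10 := by omega
      rw [h5]
      nlinarith
    · obtain ⟨a, ha⟩ := H281Sh.is_star h1 h2 (by omega) (by rw [hcardn]; omega)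
      obtain ⟨v, hv1, hv2, -⟩ := H281Sh.star_lower h1 ha
      rw [hcardn] at hv2
      rw [← h3]
      exact hv1.trans (Nat.choose_le_choose 2 (by omega))
  · intro h
    have hn0 : 1 ≤ n := by
      by_contra h0
      have : n - 1 = 0 := by omega
      rw [this] at h
      simp at h
      omega
    obtain ⟨F, h1, h2, h3, -⟩ := H281Sh.star_upper (α := Fin n) m (n - 1)
      (by rw [hcardn]; omega) h
    exact ⟨F, h1, h2, h3⟩
  · intro hn
    obtain ⟨F, h1, h2, h3, h4⟩ := H281Sh.upper (α := Fin n) m (by rw [hcardn]; exact hn)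
      (by omega)
    have hF : IsIntersecting n 3 m F := ⟨h1, h2, h3⟩
    apply le_antisymm
    · exact (s_le hF).trans h4
    · apply le_s hF
      intro F' hF'
      have hl := H281Sh.lower hF'.1 hF'.2.1 (by rw [hF'.2.2]; exact hm)
      rw [hF'.2.2] at hl
      split_ifs with h
      · exact hl.1
      · exact hl.2 h
  · intro hn hC
    have hn0 : 1 ≤ n := by
      by_contra h0
      have : n - 1 = 0 := by omega
      rw [this] at hC
      simp at hC
      omega
    have hmem : n - 1 ∈ {x : ℕ | m ≤ x.choose 2} := hC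
    have hx0 : m ≤ (sInf {x : ℕ | m ≤ x.choose 2}).choose 2 := Nat.sInf_mem ⟨_, hmem⟩
    have hx1 : sInf {x : ℕ | m ≤ x.choose 2} ≤ n - 1 := Nat.sInf_le hmem
    obtain ⟨F, h1, h2, h3, h4⟩ := H281Sh.star_upper (α := Fin n) m _
      (by rw [hcardn]; omega) hx0
    have hF : IsIntersecting n 3 m F := ⟨h1, h2, h3⟩
    apply le_antisymm
    · exact (s_le hF).trans h4
    · apply le_s hF
      intro F' hF'
      obtain ⟨a, ha⟩ := H281Sh.is_star hF'.1 hF'.2.1 (by rw [hF'.2.2]; exact hm)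
        (by rw [hcardn, hF'.2.2]; omega)
      obtain ⟨v, hv1, hv2, hv3⟩ := H281Sh.star_lower hF'.1 ha
      rw [hF'.2.2] at hv1 hv3
      have : sInf {x : ℕ | m ≤ x.choose 2} ≤ v := Nat.sInf_le hv1
      omega

end Pool.Agent.Results.MP_d50107_co.ThreeSets
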